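/-
MP_e0d435_ag, Q1: for every klt Fano variety X over C with delta(X) <= 1 one has
delta(X) = gamma(X).

Let X be a klt Fano variety of dimension n and r >= 1 an integer such that r K_X is Cartier
(r = the Cartier index gives the m' = m r with - m' K_X Cartier). L = - r K_X, R = the sum of the
A m = H^0(X, mL). X enters through R, A, elements x_0, ..., x_n of A d over which R is finite
(a homogeneous system of parameters), and the section G of (r d (n + 1) - 1) L whose divisor is
r times the divisor of dx_0 ^ ... ^ dx_n; the existence of G means L = - r K_X (the form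
(dx_0 ^ ... ^ dx_n)^r / G, of degree 1, trivialises the r-th power of the canonical sheaf of the
cone, i.e. L + r K_X is trivial). All this is the structure IsFano in Pool/Agent/Lib_KF/Defs.lean;
IsKltVar says that all log discrepancies of X are positive. Prime divisors over X ^ N are
DivisorOver of Pool/Agent/Lib_GD/Defs.lean: discrete valuation rings V with N points R -> V of the
cone. The log discrepancy is 1 + length (Omega_V / span of the d (x_b / x_b')) - ord (G) / r.

The proof: Pool/Agent/Lib_KF and Pool/Agent/Lib_MP_e0d435_kv. gamma <= delta (Fujita) is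
Lib_KF/FFuj.lean; the new inequality min (delta, 1) <= gamma is min_stabilityF_le_gibbsF in
Lib_KF/FMain.lean.
-/
import Pool.Agent.Lib_MP_e0d435_m.G29

namespace Pool.Agent.Results.MP_e0d435_ag.KltFano

open Pool.Agent.Lib_KF

/-- Q1: a klt Fano variety X with delta(X) <= 1 has delta(X) = gamma(X). -/
theorem result {R : Type} [CommRing R] [Algebra ℂ R] (𝒜 : ℕ → Submodule ℂ R) [GradedAlgebra 𝒜]
    (n r d : ℕ) (x : Fin (n + 1) → R) (G : R) (h : IsFano 𝒜 n r d x G)
    (hklt : IsKltVar 𝒜 n r x G) (hδ : stabilityF 𝒜 n r x G ≤ 1) :
    stabilityF 𝒜 n r x G = gibbsF 𝒜 n r x G :=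
  stabilityF_eq_gibbsF h hklt hδ

end Pool.Agent.Results.MP_e0d435_ag.KltFano
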