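/-
MP_e0d435_ag: the Gibbs invariant of projective space, gamma(P^n) = delta(P^n) = 1 for every n,
with the rate of convergence O(1/N).

The determinant section of O(k) on (P^n)^N, N = binomial(n+k, n), is the determinant of the matrix
of all monomials of degree k in n+1 variables, evaluated at N points; in the product of the affine
charts i_1, ..., i_N (number i_j for the j-th factor) its local equation is GPn.locEq n k i.
GPn.lct n k is the log canonical threshold of its divisor D, i.e. the supremum of the c >= 0 such
that |f|^(-2c) is locally integrable for the local equations f of D.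
For k = m (n+1) we have O(k) = -mK, so that lct((P^n)^N, D/m) = m * GPn.lct n (m (n+1)).
-/
import Pool.Agent.Lib_MP_e0d435_ag.Final

namespace Pool.Agent.Results.MP_e0d435_ag.ProjSpace

/-- For every n ≥ 1 the Gibbs invariant of P^n equals 1; more precisely, with N = binomial(n+k, n),
the log canonical threshold lct n k of the divisor of the determinant section of O(k) on (P^n)^N
satisfies n + 1 - C / N ≤ k * lct n k ≤ n + 1 for all k ≥ 1, with C depending only on n. -/
theorem result (n : ℕ) (hn : 1 ≤ n) :
    Filter.Tendsto (fun m : ℕ => (m : ℝ) * GPn.lct n (m * (n + 1))) Filter.atTop (nhds 1) ∧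
    ∃ C : ℝ, 0 < C ∧ ∀ k : ℕ, 1 ≤ k →
      (n : ℝ) + 1 - C / ((n + k).choose n : ℕ) ≤ k * GPn.lct n k ∧
        k * GPn.lct n k ≤ (n : ℝ) + 1 :=
  ⟨GPn.gamma_eq_one n hn, GPn.lct_bounds n hn⟩

end Pool.Agent.Results.MP_e0d435_ag.ProjSpace
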