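/-
MP_e0d435_ag: delta(X, L) = gamma(X, L) for every smooth complex projective variety X of
dimension n >= 1 and every ample line bundle L; in particular for every smooth Fano variety X with
L = -K_X.

(X, L) is given by a graded domain R = sum of the pieces A m, m >= 0, finitely generated over
C = A 0, such that X = Proj R is smooth of dimension n and O(1) is a line bundle
(IsSmoothPolarised); for (X, L) take A m = H^0(X, mL) (conversely, A m is H^0(X, mL) for all
large m, and only large m matter below). A point of X with values in a local ring V is given by a
ring homomorphism R -> V which maps some homogeneous element of positive degree to a unit (local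
coordinates on the cone), and a prime divisor over X ^ N by a discrete valuation ring V with N
such points (DivisorOver). The log discrepancy is 1 + length (Omega_V / pull-back of the
differentials of X ^ N), the order of the divisor D_m of the determinant section is the order of
det (phi_j (s_i)). See Pool/Agent/Lib_GD/Defs.lean for the definitions.

Both inequalities are proved: gamma <= delta (Fujita) is Pool/Agent/Lib_GD/Fujita.lean, the new
inequality delta <= gamma is Pool/Agent/Lib_GD/Main.lean. In fact lct (X ^ N_m, D_m / m) converges
to delta(X, L): tendsto_lct in Pool/Agent/Lib_GD/Equality.lean.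
-/
import Pool.Agent.Lib_GD.Equality

namespace Pool.Agent.Results.MP_e0d435_ag.SmoothPolarised

open Pool.Agent.Lib_GD

/-- For every smooth projective variety X of dimension n >= 1 over C and every ample line bundle
L on X, the stability threshold is equal to the Gibbs invariant:
delta(X, L) = inf_E A_X(E) / S(E) = liminf_m lct(X ^ N_m, D_m / m) = gamma(X, L). -/
theorem result {R : Type} [CommRing R] [Algebra ℂ R] (𝒜 : ℕ → Submodule ℂ R) [GradedAlgebra 𝒜]
    (n : ℕ) (hn : 1 ≤ n) (h : IsSmoothPolarised 𝒜 n) :
    stability 𝒜 n = gibbs 𝒜 n :=
  (gibbs_eq_stability h hn).symm

end Pool.Agent.Results.MP_e0d435_ag.SmoothPolarised
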