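/-
MP_e0d435_ag: gamma(X) = delta(X) for every toric Fano variety X.

A toric Fano variety X of dimension n (Q-factorial or not, always klt) is given by its Fano
polytope F: the convex hull of the primitive generators v of the rays of the fan, and the fan
consists of the cones over the faces. The sections of -k K_X have the basis x^a, a a lattice point
with <a, v> >= -k for all rays v (GTor.Sec F k). For every choice s of n linearly independent rays
of one facet (GTor.Ch F) the map C^n -> X, x^m = prod_i z_i^<m, s_i>, is finite and etale in
codimension one onto an open affine subset if the cone is simplicial, and in general it is a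
crepant chart of a toric simplicial crepant model; these charts cover. On the product of N charts
the determinant section has the local equation GTor.locEqT, and GTor.lctT F k is the supremum of
the c >= 0 such that |f|^(-2c) is locally integrable for all these local equations, i.e. the log
canonical threshold of the divisor D_k of the determinant section on X^N (for k with k K_X Cartier,
GTor.Car F k). So lct(X^N, D_k / k) = k * GTor.lctT F k.
The stability threshold of X is the minimum over the rays of 1 / (1 + <b, v>), b the barycentre of
the moment polytope (Blum and Jonsson): GTor.deltaT F.
-/
import Pool.Agent.Lib_MP_e0d435_ag_T.FFinal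

namespace Pool.Agent.Results.MP_e0d435_ag.Toric

open Filter

/-- For every toric Fano variety X: delta(X) <= 1, and the log canonical thresholds
lct(X^N, D_k / k), k running over the positive integers with k K_X Cartier, converge to delta(X);
in particular gamma(X) = liminf lct(X^N, D_k / k) = delta(X). -/
theorem result {n : ℕ} (hn : 1 ≤ n) (F : GTor.FanoPolytope n) :
    GTor.deltaT F ≤ 1 ∧
    (atTop ⊓ principal {k : ℕ | GTor.Car F k}).NeBot ∧
    Tendsto (fun k : ℕ => (k : ℝ) * GTor.lctT F k)
      (atTop ⊓ principal {k : ℕ | GTor.Car F k}) (nhds (GTor.deltaT F)) ∧
    liminf (fun k : ℕ => (k : ℝ) * GTor.lctT F k)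
      (atTop ⊓ principal {k : ℕ | GTor.Car F k}) = GTor.deltaT F := by
  have h := GTor.toric_main hn F
  haveI := GTor.Car_neBot F
  exact ⟨(GTor.deltaT_spec hn F).2.1, GTor.Car_neBot F, h, h.liminf_eq⟩

end Pool.Agent.Results.MP_e0d435_ag.Toric
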